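import Pool.Agent.Helper12.MA.StD
import Pool.Agent.Helper12.MA.Lib

/-!
# Project MA, module UCB: a face of `P` meeting both components
-/

set_option autoImplicit false

namespace Pool.Agent.Helper7.MA

open Pool.Agent.Helper12.MA
open Pool.Agent.Helper51.AJ (IsMinor Planar Apex ExMinor Con Tch)
open Pool.Agent.Helper12.NK (rst Kc add cnt Pcy IsFace Cof plus)

private lemma cross {V : Type} {H : SimpleGraph V} {C S : Set V} (hC : Con H C) {a b : V}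
    (ha : a ∈ C) (hb : b ∈ C) (haS : a ∈ S) (hbS : b ∉ S) :
    ∃ p ∈ C, ∃ q ∈ C, p ∈ S ∧ q ∉ S ∧ H.Adj p q := by
  obtain ⟨w⟩ := hC.preconnected ⟨a, ha⟩ ⟨b, hb⟩
  obtain ⟨d, -, h1, h2⟩ := w.exists_boundary_dart {z | z.1 ∈ S} haS hbS
  exact ⟨d.fst.1, d.fst.2, d.snd.1, d.snd.2, h1, h2, d.adj⟩

private lemma con_dl {V : Type} {G : SimpleGraph V} {x y : V} {D : Set V} (h : Con G D)
    (hx : x ∉ D) : Con (dl G x y) D := by
  have e : (dl G x y).induce D = G.induce D := by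
    ext a b
    constructor
    · intro h; exact h.1
    · intro h
      refine ⟨h, ?_, ?_⟩
      · rintro ⟨h1, -⟩; exact hx (h1 ▸ a.2)
      · rintro ⟨-, h1⟩; exact hx (h1 ▸ b.2)
  show ((dl G x y).induce D).Connected
  rw [e]
  exact h

private lemma face_sub {V : Type} {M : SimpleGraph V} {U F : Set V} (h : IsFace M U F) : F ⊆ U := by
  obtain ⟨m, c, hc, rfl⟩ := h
  exact hc.2.2.1

private lemma face_third {V : Type} [Finite V] {M : SimpleGraph V} {U F : Set V}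
    (h : IsFace M U F) (a b : V) : ∃ z ∈ F, z ≠ a ∧ z ≠ b := by
  obtain ⟨m, c, hc, rfl⟩ := h
  by_contra hcon
  push Not at hcon
  have hsub : Set.range c ⊆ {a, b} := by
    intro z hz
    by_cases h1 : z = a
    · exact Or.inl h1
    · exact Or.inr (hcon z hz h1)
  have h2 : (Set.range c).ncard ≤ 2 := by
    refine (Set.ncard_le_ncard hsub).trans ?_
    have := Set.ncard_insert_le a {b}
    rw [Set.ncard_singleton] at this
    exact this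
  have h3 : (Set.range c).ncard = m := by
    rw [← Set.image_univ, Set.ncard_image_of_injective _ hc.2.1, Set.ncard_univ, Nat.card_zmod]
  have := hc.1
  omega

private lemma disj_of_lt {α : Type} {n : ℕ} {A : Fin n → Set α}
    (h : ∀ i j, i < j → Disjoint (A i) (A j)) : ∀ i j, i ≠ j → Disjoint (A i) (A j) := by
  intro i j hij
  rcases lt_or_gt_of_ne hij with h1 | h1
  · exact h i j h1
  · exact (h j i h1).symm

theorem hUCB : StFAY → StPCL → StBAS → StUCB := by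
  intro hFAY hPCL hBAS V _ G s x y D₁ D₂ Φ u₁ u₁' u₂ u₂' w₁ w₂ hB hxy hsv b1 b2 hdis hΦ hw1 hw1Φ hw2 hw2Φ
  by_contra hcon
  push Not at hcon
  obtain ⟨hxΦ, hyΦ⟩ := hcon
  obtain ⟨-, -, -, -, bas5, -, bas7⟩ := hBAS V G hB
  have hPn : Pn (dl G x y) {s}ᶜ := ⟨bas5 s x y, hsv.2.2⟩
  have hnc : ¬ Cof (dl G x y) {s}ᶜ x y := bas7 s x y hxy hsv
  have hxU : x ∈ ({s}ᶜ : Set V) := fun h => hsv.1 h.symm
  have hyU : y ∈ ({s}ᶜ : Set V) := fun h => hsv.2.1 h.symm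
  have hxney : x ≠ y := G.ne_of_adj hxy
  -- elements of US
  have usU : ∀ u ∈ US G s x y, u ∈ ({s}ᶜ : Set V) := by
    intro u hu
    obtain ⟨F, hF, -, h2⟩ := hu.2.2.1
    exact face_sub hF h2
  -- the components
  have dU : ∀ D u u', Bl G s x y D u u' → D ⊆ ({s}ᶜ : Set V) ∧ x ∉ D ∧ y ∉ D ∧ ∀ t ∈ US G s x y, t ∉ D := by
    intro D u u' hb
    refine ⟨fun t ht h => hb.sub ht (Or.inl (Or.inl h)), fun h => hb.sub h (Or.inl (Or.inr (Or.inl rfl))),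
      fun h => hb.sub h (Or.inl (Or.inr (Or.inr rfl))), fun t ht h => hb.sub h (Or.inr ht)⟩
  obtain ⟨d1U, d1x, d1y, d1s⟩ := dU D₁ u₁ u₁' b1
  obtain ⟨d2U, d2x, d2y, d2s⟩ := dU D₂ u₂ u₂' b2
  -- neighbours
  have adjD : ∀ D u u', Bl G s x y D u u' → ∀ t ∈ ({s}ᶜ : Set V), (t = x ∨ t = y ∨ t = u ∨ t = u') →
      ∃ a ∈ D, (dl G x y).Adj a t := by
    intro D u u' hb t ht h
    have h1 : t ∈ Nb G D := by
      rw [hb.nb]
      rcases h with h | h | h | h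
      · exact Or.inl h
      · exact Or.inr (Or.inl h)
      · exact Or.inr (Or.inr (Or.inr (Or.inl h)))
      · exact Or.inr (Or.inr (Or.inr (Or.inr h)))
    obtain ⟨-, a, ha, hadj⟩ := h1
    obtain ⟨-, hx', hy', -⟩ := dU D u u' hb
    refine ⟨a, ha, hadj, ?_, ?_⟩
    · rintro ⟨h2, -⟩; exact hx' (h2 ▸ ha)
    · rintro ⟨h2, -⟩; exact hy' (h2 ▸ ha)
  -- u₂ is on the face
  have hu2Φ : u₂ ∈ Φ := by
    by_contra hu
    have hC : ∃ C ⊆ Φ, Con (dl G x y) C ∧ w₁ ∈ C ∧ w₂ ∈ C ∧ u₂' ∉ C := by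
      by_cases hu' : u₂' ∈ Φ
      · refine ⟨Φ \ {u₂'}, Set.sdiff_subset, (hFAY V (dl G x y) {s}ᶜ Φ hΦ u₂' hu').1, ⟨hw1Φ, ?_⟩,
          ⟨hw2Φ, ?_⟩, fun h => h.2 rfl⟩
        · intro h
          have h2 : w₁ = u₂' := h
          exact d1s u₂' b2.mu' (h2 ▸ hw1)
        · intro h
          have h2 : w₂ = u₂' := h
          exact d2s u₂' b2.mu' (h2 ▸ hw2)
      · obtain ⟨z, hz, hz1, hz2⟩ := face_third hΦ w₁ w₂
        exact ⟨Φ \ {z}, Set.sdiff_subset, (hFAY V (dl G x y) {s}ᶜ Φ hΦ z hz).1,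
          ⟨hw1Φ, fun h => hz1 (Eq.symm h)⟩, ⟨hw2Φ, fun h => hz2 (Eq.symm h)⟩, fun h => hu' h.1⟩
    obtain ⟨C, hCs, hCc, c1, c2, c3⟩ := hC
    have hw1n : w₁ ∉ D₂ := fun h => Set.disjoint_left.1 hdis hw1 h
    obtain ⟨p, hp, q, hq, hpD, hqD, hadj⟩ := cross hCc c2 c1 hw2 hw1n
    have hqN : q ∈ Nb G D₂ := ⟨hqD, p, hpD, hadj.1⟩
    rw [b2.nb] at hqN
    rcases hqN with h | h | h | h | h
    · exact hxΦ (h ▸ hCs hq)
    · exact hyΦ (h ▸ hCs hq)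
    · exact face_sub hΦ (hCs hq) h
    · exact hu (h ▸ hCs hq)
    · have h' : q = u₂' := h
      exact c3 (h' ▸ hq)
  obtain ⟨P1, P2, P3, P4, P5, -⟩ := hPCL V (dl G x y) {s}ᶜ
  have u2U := usU u₂ b2.mu
  have u2U' := usU u₂' b2.mu'
  set Fx : Set (Set V) := {F | IsFace (dl G x y) {s}ᶜ F ∧ x ∈ F} with hFx
  set Fy : Set (Set V) := {F | IsFace (dl G x y) {s}ᶜ F ∧ y ∈ F} with hFy
  -- connected sets
  have q0 : PC (dl G x y) {s}ᶜ D₁ {Φ} := by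
    have h := P3 D₁ ∅ ∅ {Φ} (P1 D₁ d1U (con_dl b1.con d1x)) (P2 Φ hΦ)
      (Or.inr (Or.inl ⟨w₁, hw1, Φ, rfl, hΦ, hw1Φ⟩))
    rwa [Set.union_empty, Set.empty_union] at h
  have q1 : PC (dl G x y) {s}ᶜ D₂ ∅ := P1 D₂ d2U (con_dl b2.con d2x)
  have q2 : PC (dl G x y) {s}ᶜ {u₂} ∅ := P4 u₂ ∅ u2U (fun F hF => absurd hF (Set.notMem_empty F))
  have q3 : PC (dl G x y) {s}ᶜ {x} Fx := P4 x Fx hxU (fun F hF => hF.2)
  have q4 : PC (dl G x y) {s}ᶜ {y, u₂'} Fy := by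
    obtain ⟨F, hF, h1, h2⟩ := b2.mu'.2.2.2
    have h := P3 {y} {u₂'} Fy ∅ (P4 y Fy hyU (fun F hF => hF.2))
      (P4 u₂' ∅ u2U' (fun F hF => absurd hF (Set.notMem_empty F)))
      (Or.inr (Or.inr ⟨F, ⟨hF, h1⟩, u₂', rfl, hF, h2⟩))
    rw [Set.union_empty] at h
    have e : ({y} ∪ {u₂'} : Set V) = {y, u₂'} := rfl
    rwa [e] at h
  -- disjoint
  have hsD : ∀ (D : Set V) (t : V), t ∉ D → Disjoint D {t} := fun D t h => Set.disjoint_singleton_right.2 h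
  have r01 : Disjoint D₁ D₂ := hdis
  have r02 : Disjoint D₁ {u₂} := hsD _ _ (d1s u₂ b2.mu)
  have r03 : Disjoint D₁ {x} := hsD _ _ d1x
  have r04 : Disjoint D₁ {y, u₂'} := by
    rw [Set.disjoint_left]
    rintro t ht (h | h)
    · exact d1y (h ▸ ht)
    · have h' : t = u₂' := h
      exact d1s u₂' b2.mu' (h' ▸ ht)
  have r12 : Disjoint D₂ {u₂} := hsD _ _ (d2s u₂ b2.mu)
  have r13 : Disjoint D₂ {x} := hsD _ _ d2x
  have r14 : Disjoint D₂ {y, u₂'} := by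
    rw [Set.disjoint_left]
    rintro t ht (h | h)
    · exact d2y (h ▸ ht)
    · have h' : t = u₂' := h
      exact d2s u₂' b2.mu' (h' ▸ ht)
  have r23 : Disjoint ({u₂} : Set V) {x} := Set.disjoint_singleton.2 b2.mu.1
  have r24 : Disjoint ({u₂} : Set V) {y, u₂'} := by
    rw [Set.disjoint_singleton_left]
    rintro (h | h)
    · exact b2.mu.2.1 h
    · exact b2.ne h
  have r34 : Disjoint ({x} : Set V) {y, u₂'} := by
    rw [Set.disjoint_singleton_left]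
    rintro (h | h)
    · exact hxney h
    · exact b2.mu'.1 (Eq.symm h)
  have t03 : Disjoint ({Φ} : Set (Set V)) Fx := Set.disjoint_singleton_left.2 fun h => hxΦ h.2
  have t04 : Disjoint ({Φ} : Set (Set V)) Fy := Set.disjoint_singleton_left.2 fun h => hyΦ h.2
  have t34 : Disjoint Fx Fy := Set.disjoint_left.2 fun F h h' => hnc ⟨F, h.1, h.2, h'.2⟩
  -- touching
  have tc : ∀ D u u', Bl G s x y D u u' → ∀ (t : V) (T B : _) (S : Set (Set V)), t ∈ ({s}ᶜ : Set V) →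
      (t = x ∨ t = y ∨ t = u ∨ t = u') → t ∈ B → PT (dl G x y) {s}ᶜ D T B S := by
    intro D u u' hb t T B S ht h htB
    obtain ⟨a, ha, hadj⟩ := adjD D u u' hb t ht h
    exact Or.inl ⟨a, ha, t, htB, (dU D u u' hb).1 ha, ht, hadj⟩
  have p01 : PT (dl G x y) {s}ᶜ D₁ {Φ} D₂ ∅ := Or.inr (Or.inr ⟨Φ, rfl, w₂, hw2, hΦ, hw2Φ⟩)
  have p02 : PT (dl G x y) {s}ᶜ D₁ {Φ} {u₂} ∅ := Or.inr (Or.inr ⟨Φ, rfl, u₂, rfl, hΦ, hu2Φ⟩)
  have p03 : PT (dl G x y) {s}ᶜ D₁ {Φ} {x} Fx := tc _ _ _ b1 x _ _ _ hxU (Or.inl rfl) rfl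
  have p04 : PT (dl G x y) {s}ᶜ D₁ {Φ} {y, u₂'} Fy :=
    tc _ _ _ b1 y _ _ _ hyU (Or.inr (Or.inl rfl)) (Or.inl rfl)
  have p12 : PT (dl G x y) {s}ᶜ D₂ ∅ {u₂} ∅ :=
    tc _ _ _ b2 u₂ _ _ _ u2U (Or.inr (Or.inr (Or.inl rfl))) rfl
  have p13 : PT (dl G x y) {s}ᶜ D₂ ∅ {x} Fx := tc _ _ _ b2 x _ _ _ hxU (Or.inl rfl) rfl
  have p14 : PT (dl G x y) {s}ᶜ D₂ ∅ {y, u₂'} Fy :=
    tc _ _ _ b2 y _ _ _ hyU (Or.inr (Or.inl rfl)) (Or.inl rfl)
  have p23 : PT (dl G x y) {s}ᶜ {u₂} ∅ {x} Fx := by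
    obtain ⟨F, hF, h1, h2⟩ := b2.mu.2.2.1
    exact Or.inr (Or.inl ⟨u₂, rfl, F, ⟨hF, h1⟩, hF, h2⟩)
  have p24 : PT (dl G x y) {s}ᶜ {u₂} ∅ {y, u₂'} Fy := by
    obtain ⟨F, hF, h1, h2⟩ := b2.mu.2.2.2
    exact Or.inr (Or.inl ⟨u₂, rfl, F, ⟨hF, h1⟩, hF, h2⟩)
  have p34 : PT (dl G x y) {s}ᶜ {x} Fx {y, u₂'} Fy := by
    obtain ⟨F, hF, h1, h2⟩ := b2.mu'.2.2.1
    exact Or.inr (Or.inr ⟨F, ⟨hF, h1⟩, u₂', Or.inr rfl, hF, h2⟩)
  refine P5 hPn ![D₁, D₂, {u₂}, {x}, {y, u₂'}] ![{Φ}, ∅, ∅, Fx, Fy] ?_ (disj_of_lt ?_)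
    (disj_of_lt ?_) ?_
  · intro i
    fin_cases i
    exacts [q0, q1, q2, q3, q4]
  · intro i j hij
    fin_cases i <;> fin_cases j <;> first | exact absurd hij (by decide) | skip
    exacts [r01, r02, r03, r04, r12, r13, r14, r23, r24, r34]
  · intro i j hij
    fin_cases i <;> fin_cases j <;> first | exact absurd hij (by decide) | skip
    exacts [disjoint_bot_right, disjoint_bot_right, t03, t04, disjoint_bot_right, disjoint_bot_left,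
      disjoint_bot_left, disjoint_bot_left, disjoint_bot_left, t34]
  · intro i j hij
    fin_cases i <;> fin_cases j <;> first | exact absurd hij (by decide) | skip
    exacts [p01, p02, p03, p04, p12, p13, p14, p23, p24, p34]

end Pool.Agent.Helper7.MA
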